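import Pool.Agent.H20.ThmD.Final

/-!
# Pathwidth bounded by the clique number: dominated separators, and star-free graphs

For every `f` there is a constant `c` such that every finite graph `G` in which each induced
subgraph has pathwidth at most `f` of its clique number satisfies

* for every weight function, some balanced separator of `G` is dominated by at most `c` vertices;
* if moreover `G` is `K_{1,d}`-free, then `G` has a tree decomposition all of whose bags have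
  independence number at most `c d`.
-/

set_option autoImplicit false

namespace Pool.Agent.Results.MP_44e7ab_co.DominatedSeparators

open Finset Pool.Agent.H20 Pool.Agent.H20.ThmD Pool.Agent.H112R3.TA

theorem result (f : ℕ → ℕ) : ∃ c : ℕ, ∀ (V : Type) [Fintype V] (G : SimpleGraph V),
    (∀ S : Finset V, ∃ w : ℕ,
        (∃ C : Finset V, C ⊆ S ∧ G.IsNClique w C) ∧
        (∀ C : Finset V, C ⊆ S → G.IsClique (C : Set V) → C.card ≤ w) ∧
        (∃ (n : ℕ) (X : Fin n → Finset V),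
          (∀ i, X i ⊆ S) ∧
          (∀ v ∈ S, ∃ i, v ∈ X i) ∧
          (∀ u v, u ∈ S → v ∈ S → G.Adj u v → ∃ i, u ∈ X i ∧ v ∈ X i) ∧
          (∀ v, ∀ i j l : Fin n, i ≤ j → j ≤ l → v ∈ X i → v ∈ X l → v ∈ X j) ∧
          (∀ i, (X i).card ≤ f w + 1))) →
    (∀ w : V → ℝ, (∀ v, 0 ≤ w v) → ∃ Y : Finset V, Y.card ≤ c ∧
      ∀ C : Finset V, (G.induce (C : Set V)).Connected →
        (∀ v ∈ C, ∀ y ∈ Y, y ≠ v ∧ ¬ G.Adj y v) → 2 * ∑ v ∈ C, w v ≤ ∑ v, w v) ∧
    ∀ d : ℕ, 1 ≤ d →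
      (∀ (v : V) (S : Finset V), S.card = d → (∀ x ∈ S, G.Adj v x) →
        ∃ x ∈ S, ∃ y ∈ S, x ≠ y ∧ G.Adj x y) →
      ∃ (ι : Type) (_ : Fintype ι) (T : SimpleGraph ι) (X : ι → Finset V),
        T.IsTree ∧
        (∀ v, ∃ t, v ∈ X t) ∧
        (∀ u v, G.Adj u v → ∃ t, u ∈ X t ∧ v ∈ X t) ∧
        (∀ v, ∀ s t, v ∈ X s → v ∈ X t → ∃ p : T.Walk s t, ∀ x ∈ p.support, v ∈ X x) ∧
        (∀ t, ∀ I : Finset V, I ⊆ X t → G.IsIndepSet (I : Set V) → I.card ≤ c * d) := by
  classical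
  set p := f 0 + f 1 + f 2 + f 3 + f 4 + 1 with hp
  set K := KK (4 * (p + 1) * (p + 1)) p 1 + 1 with hK
  refine ⟨13 * K, ?_⟩
  intro V _ G hG
  have hD : DS G K := by
    refine (DS_of_pw (p := p) ?_).mono (Nat.le_succ _)
    intro S hS
    obtain ⟨w, ⟨C, hCS, hC⟩, _, n, X, h1, h2, h3, h4, h5⟩ := hG S
    have hw : w ≤ 4 := by
      have := hS C hCS hC.isClique
      rwa [hC.card_eq] at this
    refine ⟨n, X, h1, h2, h3, h4, ?_⟩
    intro i
    have hfw : f w + 1 ≤ p := by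
      rw [hp]
      interval_cases w <;> omega
    exact (h5 i).trans hfw
  refine ⟨?_, ?_⟩
  · intro w hw
    obtain ⟨Y, hY, h1⟩ := hD.weight w hw
    exact ⟨Y, hY.trans (by omega), h1⟩
  · intro d hd hstar
    obtain ⟨m, T, B, h1, h2, h3, _, h5, h6⟩ := td_of_dom (by omega) hd (al_cnb_le hd hstar) hD
    refine ⟨Fin m, inferInstance, T, B, h1, h2, h3, h5, ?_⟩
    intro i I hI hI'
    refine (h6 i I hI hI').trans ?_
    rw [mul_assoc]

end Pool.Agent.Results.MP_44e7ab_co.DominatedSeparators
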