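import Pool.Agent.H20.Fin8b
import Pool.Graph.R_seed8.H46R3.TreeHelly

/-!
# Pathwidth bounded by the clique number versus tree-independence number

Every class of graphs which is defined by finitely many forbidden induced subgraphs and in which
the pathwidth is bounded in terms of the clique number has bounded tree-independence number.
-/

set_option autoImplicit false

namespace Pool.Agent.Results.MP_44e7ab_co.FinitelyDefinedClasses

open Finset

theorem result :
    ∀ (k : ℕ) (n : Fin k → ℕ) (H : ∀ i, SimpleGraph (Fin (n i))),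
      (∃ f : ℕ → ℕ, ∀ (V : Type) [Fintype V] (G : SimpleGraph V),
        (∀ i, IsEmpty (H i ↪g G)) → ∀ c : ℕ, G.CliqueFree (c + 1) →
        ∃ (m : ℕ) (X : Fin m → Finset V),
          (∀ v : V, ∃ i, v ∈ X i) ∧
          (∀ u v : V, G.Adj u v → ∃ i, u ∈ X i ∧ v ∈ X i) ∧
          (∀ v : V, ∀ i j l : Fin m, i ≤ j → j ≤ l → v ∈ X i → v ∈ X l → v ∈ X j) ∧
          ∀ i, (X i).card ≤ f c + 1) →
      ∃ K : ℕ, ∀ (V : Type) [Fintype V] (G : SimpleGraph V),
        (∀ i, IsEmpty (H i ↪g G)) →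
        ∃ (m : ℕ) (T : SimpleGraph (Fin m)) (B : Fin m → Finset V),
          T.IsTree ∧ (∀ v : V, ∃ t, v ∈ B t) ∧
          (∀ u v : V, G.Adj u v → ∃ t, u ∈ B t ∧ v ∈ B t) ∧
          (∀ v : V, (T.induce {t : Fin m | v ∈ B t}).Connected) ∧
          ∀ t, ∀ S : Finset V, S ⊆ B t →
            (∀ u ∈ S, ∀ w ∈ S, ¬ G.Adj u w) → S.card ≤ K := by
  classical
  rintro k n H ⟨f, hf⟩
  refine Pool.Agent.H20.final (f := f) ?_
  intro V _ G hG c hc
  obtain ⟨m, X, h1, h2, h3, h4⟩ := hf V G hG c hc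
  rcases m with _ | m
  · refine ⟨0 + 1, SimpleGraph.pathGraph (0 + 1), fun _ => ∅,
      Pool.Agent.H46R3.Exp.path_tree 0, ?_, ?_, ?_, ?_⟩
    · intro v
      obtain ⟨i, _⟩ := h1 v
      exact i.elim0
    · intro u _ _
      obtain ⟨i, _⟩ := h1 u
      exact i.elim0
    · intro v
      obtain ⟨i, _⟩ := h1 v
      exact i.elim0
    · intro _
      simp
  · refine ⟨m + 1, SimpleGraph.pathGraph (m + 1), X, Pool.Agent.H46R3.Exp.path_tree m, h1, h2,
      ?_, h4⟩
    intro v
    obtain ⟨i0, hi0⟩ := h1 v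
    let S : Finset (Fin (m + 1)) := univ.filter (fun i => v ∈ X i)
    have hS : S.Nonempty := ⟨i0, mem_filter.2 ⟨mem_univ _, hi0⟩⟩
    have hlo : v ∈ X (S.min' hS) := (mem_filter.1 (S.min'_mem hS)).2
    have hhi : v ∈ X (S.max' hS) := (mem_filter.1 (S.max'_mem hS)).2
    refine Pool.Agent.H46R3.Exp.interval_connected (m + 1) {t | v ∈ X t} (S.min' hS).val
      (S.max' hS).val ?_ ?_ (S.max' hS).isLt
    · intro i
      constructor
      · intro hi
        have hiS : i ∈ S := mem_filter.2 ⟨mem_univ _, hi⟩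
        exact ⟨S.min'_le i hiS, S.le_max' i hiS⟩
      · rintro ⟨ha, hb⟩
        exact h3 v (S.min' hS) i (S.max' hS) ha hb hlo hhi
    · exact S.min'_le _ (S.max'_mem hS)

end Pool.Agent.Results.MP_44e7ab_co.FinitelyDefinedClasses
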